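import Pool.Agent.NBT.StmtsC

/-! Row FLW of squad NBT: the flow along `1_S` to the first failure. -/

set_option autoImplicit false

open Matrix Filter Topology

namespace Pool.Agent.NBT.H44

open Pool.Agent.PFS Pool.Agent.PFJ

theorem sum_ite_smul {n K : ℕ} (w : Fin K → V n) (S : Finset (Fin K)) (r : ℝ) :
    ∑ i, (if i ∈ S then r else 1) • w i = r • fS w S + fS w Sᶜ := by
  unfold fS
  rw [← Finset.sum_add_sum_compl S, Finset.smul_sum]
  refine congrArg₂ (· + ·) (Finset.sum_congr rfl fun i hi => ?_)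
    (Finset.sum_congr rfl fun i hi => ?_)
  · rw [if_pos hi]
  · rw [if_neg (Finset.mem_compl.mp hi), one_smul]

/-- the zoomed weighted simplices are in the family -/
theorem zoom_mem {n K : ℕ} {C : Set (V n)} {Γ Γ₀ : Subgroup (GL (Fin n) ℝ)}
    {T : (Fin K → V n) → Prop} (h : FAM C Γ Γ₀ T) {z : Fin K → V n} (hz : T z)
    {r : Fin K → ℝ} (hr : ∀ i, 0 < r i) {g : GL (Fin n) ℝ} (hg : g ∈ Γ₀) {s : ℝ} (hs : 0 < s) :
    T (fun i => s • act g (r i • z i)) :=
  h.scl _ (h.inv _ (h.scl z hz r hr) g hg) (fun _ => s) fun _ => hs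

theorem flwF (tbf : TbfStmt) (_bin : BinStmt) (pje : PjeStmt) (pjf : PjfStmt) (pjc : PjcStmt)
    (zmi : ZmiStmt) (nrf : NrfStmt) (nrs : NrsStmt) (zlf : ZlfStmt) (spb : SpbStmt)
    (fla : FlaStmt) : FlwStmt := by
  intro n C Γ Γ₀ K T c h hM S hnr δ hδ w hw
  have hC : PCone C := h.cc.toPCone
  have hK : (0 : ℝ) < K := by
    have := h.three
    exact_mod_cast (by omega : 0 < K)
  obtain ⟨nr1, nr2, nr3, nr4, nr5⟩ := nrf n C Γ K h.cc
  -- the constant
  obtain ⟨δ', hδ', hδ1, hδ2⟩ : ∃ δ' : ℝ, 0 < δ' ∧ 3 * δ' ≤ δ ∧ K * (3 * δ') ≤ 1 / 2 := by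
    refine ⟨min (δ / 3) (1 / (6 * K)), lt_min (by positivity) (by positivity), ?_, ?_⟩
    · have := min_le_left (δ / 3) (1 / (6 * (K : ℝ)))
      linarith
    · have h1 := min_le_right (δ / 3) (1 / (6 * (K : ℝ)))
      calc (K : ℝ) * (3 * min (δ / 3) (1 / (6 * K))) ≤ K * (3 * (1 / (6 * K))) := by gcongr
        _ = 1 / 2 := by field_simp; norm_num
  obtain ⟨z, hz, hzt, hzn⟩ := nrs n C Γ Γ₀ K T c h hM S hnr w hw
  obtain ⟨p, hp⟩ := pje n C Γ Γ₀ K T c h w hw S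
  obtain ⟨φ0, t, i0, hφ0, htt, hi0, hfl, hnf⟩ := fla n C Γ Γ₀ K T c h S w p hw hp z hz hzt hzn δ' hδ'
  obtain ⟨φ, g, s, W, P, Q, hφ, hg, hs, hZL, hsv1, hsv2⟩ := zmi n C Γ Γ₀ K T c h w hw S t htt
  have htt' : Tendsto (fun m => t (φ m)) atTop atTop := htt.comp hφ.tendsto_atTop
  obtain ⟨zf1, zf2, -, -, -, -, -, -⟩ :=
    zlf n C Γ Γ₀ K T c h w hw S (fun m => t (φ m)) g s W P Q htt' hg hs hZL
  obtain ⟨-, -, -, -, -, tb6, -⟩ := tbf n C Γ Γ₀ K T c h w hw
  obtain ⟨-, -, -, -, -, tw6, -⟩ := tbf n C Γ Γ₀ K T c h W hZL.tw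
  have hgΓ : ∀ m, g m ∈ Γ := fun m => h.sub (hg m)
  set zz : ℕ → Fin K → V n := fun m => z (φ0 (φ m)) with hzz
  set tt : ℕ → ℝ := fun m => t (φ m) with htt0
  set u : ℕ → Fin K → V n := fun m i => zz m i - p (zz m i) with hu
  set v : ℕ → Fin K → V n := fun m i => s m • act (g m) (Real.exp (tt m) • u m i) with hv
  set PP : ℕ → V n := fun m => Real.exp (tt m) • fS w S + fS w Sᶜ with hPP
  set GP : ℕ → V n := fun m => s m • act (g m) (PP m) with hGP
  have hTzz : ∀ m, T (zz m) := fun m => hz _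
  have hzzt : ∀ i, Tendsto (fun m => zz m i) atTop (𝓝 (w i)) := fun i =>
    (hzt i).comp ((hφ0.comp hφ).tendsto_atTop)
  have hpc : Continuous p := p.continuous_of_finiteDimensional
  have hWC : ∑ i, W i ∈ C := (h.pes W hZL.tw).1.sum_mem
  -- limits
  have hGPt : Tendsto GP atTop (𝓝 (∑ i, W i)) := by
    have h1 : Tendsto (fun m => ∑ i, s m • act (g m)
        ((if i ∈ S then Real.exp (tt m) else 1) • w i)) atTop (𝓝 (∑ i, W i)) :=
      tendsto_finsetSum _ fun i _ => hZL.lim i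
    refine h1.congr fun m => ?_
    rw [← Finset.smul_sum, ← CC.act_sum, sum_ite_smul]
  have hout : ∀ l, l ∉ S → Tendsto (fun m => s m • act (g m) (zz m l)) atTop (𝓝 (W l)) := by
    intro l hl
    have h1 := hZL.limP (fun m => zz m l) (w l) (hzzt l)
    rwa [zf1 l hl] at h1
  have hin : ∀ i ∈ S, Tendsto (fun m => (s m * Real.exp (tt m)) • act (g m) (p (zz m i))) atTop
      (𝓝 (W i)) := by
    intro i hi
    have h1 : Tendsto (fun m => p (zz m i)) atTop (𝓝 (w i)) := by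
      have h2 := (hpc.tendsto (w i)).comp (hzzt i)
      rwa [hp.idB (w i) ((tb6 i S).mpr hi)] at h2
    have h2 := hZL.limQ (fun m => p (zz m i)) (w i) (fun m => hp.mem _) h1
    rwa [zf2 i hi] at h2
  -- bounds
  have hle : ∀ m, ∀ i ∈ S, (3 * δ') • GP m - v m i ∈ closure C ∧
      (3 * δ') • GP m + v m i ∈ closure C := by
    intro m i hi
    obtain ⟨h1, h2⟩ := hfl (φ m) i hi
    constructor
    · have h3 := (h.cc.sact_cl_iff (hgΓ m) (hs m)).mpr h1
      rw [CC.act_sub, smul_sub, CC.act_smul _ (3 * δ'), smul_comm] at h3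
      exact h3
    · have h3 := (h.cc.sact_cl_iff (hgΓ m) (hs m)).mpr h2
      rw [CC.act_add, smul_add, CC.act_smul _ (3 * δ'), smul_comm] at h3
      exact h3
  obtain ⟨B, hB, hnorm⟩ := hC.normal
  obtain ⟨R, hR⟩ : ∃ R : ℝ, ∀ m, ‖GP m‖ ≤ R := by
    obtain ⟨R, hR⟩ := (Metric.isBounded_range_of_tendsto GP hGPt).exists_norm_le
    exact ⟨R, fun m => hR _ ⟨m, rfl⟩⟩
  have hvb : ∀ m, ∀ i ∈ S, ‖v m i‖ ≤ (B * (6 * δ') + 3 * δ') * R := by
    intro m i hi
    obtain ⟨h1, h2⟩ := hle m i hi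
    have h3 : (6 * δ') • GP m - ((3 * δ') • GP m + v m i) ∈ closure C := by
      have h4 : (6 * δ') • GP m - ((3 * δ') • GP m + v m i) = (3 * δ') • GP m - v m i := by
        rw [show (6 * δ' : ℝ) = 3 * δ' + 3 * δ' by ring, add_smul]
        abel
      rwa [h4]
    have h5 := hnorm _ _ h2 h3
    have h6 : ‖(6 * δ') • GP m‖ = 6 * δ' * ‖GP m‖ := by
      rw [norm_smul, Real.norm_of_nonneg (by positivity)]
    have h7 : ‖(3 * δ') • GP m‖ = 3 * δ' * ‖GP m‖ := by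
      rw [norm_smul, Real.norm_of_nonneg (by positivity)]
    have h8 : ‖v m i‖ ≤ ‖(3 * δ') • GP m + v m i‖ + ‖(3 * δ') • GP m‖ := by
      have h9 : v m i = ((3 * δ') • GP m + v m i) - (3 * δ') • GP m := by abel
      calc ‖v m i‖ = ‖((3 * δ') • GP m + v m i) - (3 * δ') • GP m‖ := congrArg _ h9
        _ ≤ _ := norm_sub_le _ _
    rw [h6] at h5
    rw [h7] at h8
    calc ‖v m i‖ ≤ B * (6 * δ' * ‖GP m‖) + 3 * δ' * ‖GP m‖ := by linarith
      _ = (B * (6 * δ') + 3 * δ') * ‖GP m‖ := by ring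
      _ ≤ _ := by
        have := hR m
        gcongr
  have hRn : 0 ≤ (B * (6 * δ') + 3 * δ') * R := by
    have h1 : 0 ≤ R := (norm_nonneg _).trans (hR 0)
    positivity
  -- subsequence
  obtain ⟨ℓ, ψ, hψ, hℓ⟩ : ∃ (ℓ : Fin K → V n) (ψ : ℕ → ℕ), StrictMono ψ ∧
      ∀ i ∈ S, Tendsto (fun m => v (ψ m) i) atTop (𝓝 (ℓ i)) := by
    obtain ⟨ℓ, -, ψ, hψ, hl⟩ := tendsto_subseq_of_bounded
      (Metric.isBounded_closedBall (x := (0 : Fin K → V n))
        (r := (B * (6 * δ') + 3 * δ') * R))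
      (x := fun m i => if i ∈ S then v m i else 0) (fun m => by
        rw [mem_closedBall_zero_iff, pi_norm_le_iff_of_nonneg hRn]
        intro i
        by_cases hi : i ∈ S
        · rw [if_pos hi]; exact hvb m i hi
        · rw [if_neg hi, norm_zero]; exact hRn)
    refine ⟨ℓ, ψ, hψ, fun i hi => ?_⟩
    have h1 := (tendsto_pi_nhds.mp hl) i
    refine h1.congr fun m => ?_
    simp only [Function.comp_apply, if_pos hi]
  have hψt := hψ.tendsto_atTop
  have hGPψ : Tendsto (fun m => GP (ψ m)) atTop (𝓝 (∑ i, W i)) := hGPt.comp hψt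
  have hlim : ∀ i ∈ S, (3 * δ') • (∑ i, W i) - ℓ i ∈ closure C ∧
      (3 * δ') • (∑ i, W i) + ℓ i ∈ closure C := by
    intro i hi
    constructor
    · exact isClosed_closure.mem_of_tendsto ((hGPψ.const_smul (3 * δ')).sub (hℓ i hi))
        (Eventually.of_forall fun m => (hle (ψ m) i hi).1)
    · exact isClosed_closure.mem_of_tendsto ((hGPψ.const_smul (3 * δ')).add (hℓ i hi))
        (Eventually.of_forall fun m => (hle (ψ m) i hi).2)
  have hne : ℓ i0 ≠ 0 := by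
    intro h0
    have h1 : Tendsto (fun m => δ' • GP (ψ m) - v (ψ m) i0) atTop
        (𝓝 (δ' • ∑ i, W i)) := by
      have := (hGPψ.const_smul δ').sub (hℓ i0 hi0)
      rwa [h0, sub_zero] at this
    have h2 : Tendsto (fun m => δ' • GP (ψ m) + v (ψ m) i0) atTop
        (𝓝 (δ' • ∑ i, W i)) := by
      have := (hGPψ.const_smul δ').add (hℓ i0 hi0)
      rwa [h0, add_zero] at this
    have h3 : δ' • ∑ i, W i ∈ C := hC.smul _ hWC _ hδ'
    obtain ⟨m, hm1, hm2⟩ := ((h1.eventually (hC.isOpen.mem_nhds h3)).and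
      (h2.eventually (hC.isOpen.mem_nhds h3))).exists
    refine hnf (φ (ψ m)) ⟨?_, ?_⟩
    · refine (h.cc.sact_cl_iff (hgΓ (ψ m)) (hs (ψ m))).mp ?_
      rw [CC.act_sub, smul_sub, CC.act_smul _ δ', smul_comm]
      exact subset_closure hm1
    · refine (h.cc.sact_cl_iff (hgΓ (ψ m)) (hs (ψ m))).mp ?_
      rw [CC.act_add, smul_add, CC.act_smul _ δ', smul_comm]
      exact subset_closure hm2
  -- the second simplex
  set W' : Fin K → V n := fun i => if i ∈ S then W i + ℓ i else W i with hW'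
  have hW'S : ∀ i ∈ S, W' i = W i + ℓ i := fun i hi => by rw [hW']; exact if_pos hi
  have hW'O : ∀ i, i ∉ S → W' i = W i := fun i hi => by rw [hW']; exact if_neg hi
  have hWcl : ∑ i, W i ∈ closure C := subset_closure hWC
  have hNr : Nr C (3 * δ') W W' := by
    intro i
    by_cases hi : i ∈ S
    · rw [hW'S i hi, add_sub_cancel_left]
      exact hlim i hi
    · rw [hW'O i hi, sub_self, sub_zero, add_zero]
      exact ⟨hC.cl_smul hWcl (by positivity), hC.cl_smul hWcl (by positivity)⟩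
  have hW'C : ∑ i, W' i ∈ C := by
    have h1 := nr4 _ _ _ hNr
    have h2 : (1 - (K : ℝ) * (3 * δ')) • ∑ i, W i ∈ C := hC.smul _ hWC _ (by linarith)
    exact hC.mem_of_le h2 h1
  have hr : ∀ m, ∀ i : Fin K, 0 < (if i ∈ S then Real.exp (tt m) else 1) := by
    intro m i
    split_ifs
    · exact Real.exp_pos _
    · exact one_pos
  have hTW' : T W' := by
    refine h.cld (fun m i => s (ψ m) • act (g (ψ m))
      ((if i ∈ S then Real.exp (tt (ψ m)) else 1) • zz (ψ m) i)) W'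
      (fun m => zoom_mem h.toFAM (hTzz (ψ m)) (hr (ψ m)) (hg (ψ m)) (hs (ψ m))) ?_ hW'C
    intro i
    by_cases hi : i ∈ S
    · rw [hW'S i hi]
      refine (((hin i hi).comp hψt).add (hℓ i hi)).congr fun m => ?_
      simp only [Function.comp_apply, if_pos hi, hv, hu]
      rw [mul_smul, ← CC.act_smul, ← smul_add, ← CC.act_add, ← smul_add, add_sub_cancel]
    · rw [hW'O i hi]
      refine ((hout i hi).comp hψt).congr fun m => ?_
      simp only [Function.comp_apply, if_neg hi, one_smul]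
  -- the projections
  obtain ⟨pW, hpW⟩ := pje n C Γ Γ₀ K T c h W hZL.tw S
  have hpl : ∀ i ∈ S, ∀ q : V n →ₗ[ℝ] V n, PrI C W S q → q (ℓ i) = 0 := by
    intro i hi q hq
    have hex : ∀ m, ∃ p' : V n →ₗ[ℝ] V n, PrI C (fun i => s m • act (g m)
        ((if i ∈ S then Real.exp (tt m) else 1) • w i)) S p' ∧
        ∀ x, p' (act (g m) x) = act (g m) (p x) := by
      intro m
      obtain ⟨-, -, -, pf4, -⟩ := pjf n C Γ Γ₀ K T c h w hw S p hp
      have h1 := pf4 _ (hr m)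
      obtain ⟨-, -, -, -, pf5, -⟩ := pjf n C Γ Γ₀ K T c h _ (h.scl w hw _ (hr m)) S p h1
      exact pf5 (g m) (hg m) (s m) (hs m)
    choose pm hpm1 hpm2 using hex
    have h2 := pjc n C Γ Γ₀ K T c h
      (fun m i => s (ψ m) • act (g (ψ m))
        ((if i ∈ S then Real.exp (tt (ψ m)) else 1) • w i)) W
      (fun m => zoom_mem h.toFAM hw (hr (ψ m)) (hg (ψ m)) (hs (ψ m))) hZL.tw
      (fun i => (hZL.lim i).comp hψt) S (fun m => pm (ψ m)) q (fun m => v (ψ m) i) (ℓ i)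
      (fun m => hpm1 (ψ m)) hq (hℓ i hi)
    have h3 : ∀ m, pm (ψ m) (v (ψ m) i) = 0 := by
      intro m
      simp only [hv, hu]
      rw [map_smul, hpm2, map_smul, map_sub, hp.idB _ (hp.mem _), sub_self, smul_zero,
        CC.act_zero, smul_zero]
    simp only [h3] at h2
    exact tendsto_nhds_unique h2 tendsto_const_nhds
  have hprj : ∀ i ∈ S, ∀ q : V n →ₗ[ℝ] V n, PrI C W S q → q (W' i) = W i := by
    intro i hi q hq
    rw [hW'S i hi, map_add, hpl i hi q hq, add_zero, hq.idB _ ((tw6 i S).mpr hi)]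
  refine ⟨W, W', ⟨hZL.tw, hTW', hW'O, hprj,
    spb n C Γ Γ₀ K T c h S W W' hZL.tw hTW' hprj⟩, nr1 _ _ _ _ hδ1 hWcl hNr, ⟨i0, hi0, ?_⟩, ?_⟩
  · intro hmem
    have h1 := hpW.idB _ hmem
    rw [hprj i0 hi0 pW hpW, hW'S i0 hi0] at h1
    exact hne (by simpa using h1.symm)
  · rintro k x hx (⟨hk, hsx⟩ | ⟨hk, hsx⟩)
    · exact ⟨P x, hsv1 k x hx hk hsx⟩
    · exact ⟨Q x, hsv2 k x hx hk hsx⟩

end Pool.Agent.NBT.H44
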