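import Pool.Agent.NBT.StmtsE

/-! Row NRD of squad NBT: near at arbitrarily low positions, the levels agree. -/

set_option autoImplicit false

open Matrix Filter Topology

namespace Pool.Agent.NBT.H44

open Pool.Agent.PFS Pool.Agent.PFJ

theorem nrd (tbf : TbfStmt) (nru : NruStmt) : NrdStmt := by
  intro n C Γ Γ₀ K T c h a ε hP w z hw hz σ0 σ1 hσ0 H i
  choose s σ hs hσ1 hσ2 hN using H
  obtain ⟨-, tb2, -, -, -, tb6, -⟩ := tbf n C Γ Γ₀ K T c h w hw
  obtain ⟨σ', hσ', φ, hφ, hφt⟩ := (isCompact_Icc (a := σ0) (b := σ1)).tendsto_subseq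
    (x := σ) fun N => ⟨hσ1 N, hσ2 N⟩
  have hσ'p : 0 < σ' := lt_of_lt_of_le hσ0 hσ'.1
  have hst : Tendsto s atTop atTop := tendsto_atTop_mono hs tendsto_natCast_atTop_atTop
  -- the weighted sums
  set F : ℕ → V n := fun N => ∑ m ∈ upp a (a i), Real.exp (s N * (a i - a m)) • w m with hF
  have hFt : Tendsto F atTop (𝓝 (fS w (lev a i))) := by
    have h1 : fS w (lev a i) = ∑ m ∈ upp a (a i), (if a m = a i then (1 : ℝ) else 0) • w m := by
      have h2 : lev a i = (upp a (a i)).filter fun m => a m = a i := by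
        ext m
        simp only [lev, upp, Finset.mem_filter, Finset.mem_univ, true_and]
        constructor
        · intro hm
          exact ⟨hm.ge, hm⟩
        · exact fun hm => hm.2
      unfold fS
      rw [h2, Finset.sum_filter]
      refine Finset.sum_congr rfl fun m _ => ?_
      by_cases hm : a m = a i
      · rw [if_pos hm, if_pos hm, one_smul]
      · rw [if_neg hm, if_neg hm, zero_smul]
    rw [h1]
    refine tendsto_finsetSum _ fun m hm => Tendsto.smul_const ?_ _
    have hm' : a i ≤ a m := by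
      simpa only [upp, Finset.mem_filter, Finset.mem_univ, true_and] using hm
    by_cases hmi : a m = a i
    · rw [if_pos hmi]
      simp only [hmi, sub_self, mul_zero, Real.exp_zero]
      exact tendsto_const_nhds
    · rw [if_neg hmi]
      have h3 : a i - a m < 0 := by
        rcases lt_or_eq_of_le hm' with h4 | h4
        · linarith
        · exact absurd h4.symm hmi
      exact Real.tendsto_exp_atBot.comp (hst.atTop_mul_const_of_neg h3)
  -- the inequalities
  have hkey : ∀ N, ε • F N - (σ N • z i - w i) ∈ closure C ∧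
      ε • F N + (σ N • z i - w i) ∈ closure C := by
    intro N
    have hTw : T (ws w (fun i => -(s N * a i))) :=
      h.scl w hw (fun i => Real.exp (-(s N * a i))) fun _ => Real.exp_pos _
    have hσp : 0 < σ N := lt_of_lt_of_le hσ0 (hσ1 N)
    have hTz : T (ws (fun i => σ N • z i) (fun i => -(s N * a i))) :=
      h.scl _ (h.scl z hz (fun _ => σ N) fun _ => hσp)
        (fun i => Real.exp (-(s N * a i))) fun _ => Real.exp_pos _
    obtain ⟨-, h2, -⟩ := nru n C Γ Γ₀ K T c h a ε hP _ _ hTw hTz (hN N)
    obtain ⟨h3, h4⟩ := h2 i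
    have e1 : Real.exp (s N * a i) • fS (ws w (fun i => -(s N * a i))) (upp a (a i)) = F N := by
      simp only [fS, ws, hF, Finset.smul_sum, smul_smul, ← Real.exp_add]
      refine Finset.sum_congr rfl fun m _ => ?_
      congr 2
      ring
    have e2 : Real.exp (s N * a i) • (ws (fun i => σ N • z i) (fun i => -(s N * a i)) i -
        ws w (fun i => -(s N * a i)) i) = σ N • z i - w i := by
      simp only [ws]
      rw [← smul_sub, smul_smul, ← Real.exp_add, add_neg_cancel, Real.exp_zero, one_smul]
    have hC : PCone C := h.cc.toPCone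
    have h5 := hC.cl_smul h3 (Real.exp_pos (s N * a i)).le
    have h6 := hC.cl_smul h4 (Real.exp_pos (s N * a i)).le
    rw [smul_sub, smul_comm, e1, e2] at h5
    rw [smul_add, smul_comm, e1, e2] at h6
    exact ⟨h5, h6⟩
  -- the limit
  have hFφ : Tendsto (fun N => F (φ N)) atTop (𝓝 (fS w (lev a i))) := hFt.comp hφ.tendsto_atTop
  have hzt : Tendsto (fun N => σ (φ N) • z i - w i) atTop (𝓝 (σ' • z i - w i)) :=
    (Tendsto.smul_const hφt (z i)).sub tendsto_const_nhds
  have hl1 : ε • fS w (lev a i) - (σ' • z i - w i) ∈ closure C :=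
    isClosed_closure.mem_of_tendsto ((hFφ.const_smul ε).sub hzt)
      (Eventually.of_forall fun N => (hkey (φ N)).1)
  have hl2 : ε • fS w (lev a i) + (σ' • z i - w i) ∈ closure C :=
    isClosed_closure.mem_of_tendsto ((hFφ.const_smul ε).add hzt)
      (Eventually.of_forall fun N => (hkey (φ N)).2)
  have hy := tb2 (lev a i) _ hl2 (2 * ε) (by
    have e : (2 * ε) • fS w (lev a i) - (ε • fS w (lev a i) + (σ' • z i - w i)) =
        ε • fS w (lev a i) - (σ' • z i - w i) := by
      rw [two_mul, add_smul]
      abel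
    rwa [e])
  have hi : i ∈ lev a i := by
    simp only [lev, Finset.mem_filter, Finset.mem_univ, true_and]
  have hwi : w i ∈ BI C w (lev a i) := (tb6 i _).mpr hi
  have hfS : fS w (lev a i) ∈ BI C w (lev a i) :=
    Submodule.sum_mem _ fun m hm => (tb6 m _).mpr hm
  have h7 : σ' • z i ∈ BI C w (lev a i) := by
    have e : σ' • z i = (ε • fS w (lev a i) + (σ' • z i - w i)) - ε • fS w (lev a i) + w i := by
      abel
    rw [e]
    exact Submodule.add_mem _ (Submodule.sub_mem _ hy (Submodule.smul_mem _ _ hfS)) hwi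
  have h8 := Submodule.smul_mem _ σ'⁻¹ h7
  rwa [smul_smul, inv_mul_cancel₀ hσ'p.ne', one_smul] at h8

end Pool.Agent.NBT.H44
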